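import Mathlib

/-!
# The unit group of the universal CP monoid is generated by the symmetric groups
-/

set_option autoImplicit false

namespace Pool.Agent.Results.MP_6189ff_al.UnitGroup

universe u

/-- A `d`-CP structure `(Φ, τ_1, …, τ_d)` on the monoid `M`: a bijection `Φ : M^d → M` with
`τ_i Φ(m_1, …, m_d) = m_i`. -/
structure CP (M : Type u) [Monoid M] (d : ℕ) where
  Φ : (Fin d → M) → M
  τ : Fin d → M
  bij : Function.Bijective Φ
  spec : ∀ (m : Fin d → M) (i : Fin d), τ i * Φ m = m i

/-- The 1-CP structure `(id, 1)`. -/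
def CP.one (M : Type u) [Monoid M] : CP M 1 where
  Φ m := m 0
  τ _ := 1
  bij := ⟨fun a b h => by funext i; rw [Subsingleton.elim i 0]; exact h,
    fun x => ⟨fun _ => x, rfl⟩⟩
  spec m i := by rw [Subsingleton.elim i 0, one_mul]

/-- The combination of an `s`-CP structure `(Ψ, ρ_1, …, ρ_s)` with `d_i`-CP structures
`(Φ_i, τ_{i1}, …, τ_{i d_i})`, `1 ≤ i ≤ s`: the elements are the `τ_{ij} ρ_i` in lexicographic order,
the bijection is `m ↦ Ψ(Φ_1(m_{11}, …, m_{1 d_1}), …, Φ_s(m_{s1}, …, m_{s d_s}))`. -/
def CP.comb {M : Type u} [Monoid M] {s : ℕ} (Ψ : CP M s) {d : Fin s → ℕ}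
    (F : ∀ i, CP M (d i)) : CP M (∑ i, d i) where
  Φ m := Ψ.Φ fun i => (F i).Φ fun j => m (finSigmaFinEquiv ⟨i, j⟩)
  τ k := (F (finSigmaFinEquiv.symm k).1).τ (finSigmaFinEquiv.symm k).2 *
    Ψ.τ (finSigmaFinEquiv.symm k).1
  bij := by
    constructor
    · intro m m' h
      funext k
      obtain ⟨⟨i, j⟩, rfl⟩ := finSigmaFinEquiv.surjective k
      have h1 := congrFun (Ψ.bij.1 h) i
      exact congrFun ((F i).bij.1 h1) j
    · intro x
      obtain ⟨y, rfl⟩ := Ψ.bij.2 x
      choose z hz using fun i => (F i).bij.2 (y i)
      refine ⟨fun k => z (finSigmaFinEquiv.symm k).1 (finSigmaFinEquiv.symm k).2,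
        congrArg Ψ.Φ (funext fun i => ?_)⟩
      rw [← hz i]
      refine congrArg (F i).Φ (funext fun j => ?_)
      have key : ∀ q : (Σ i, Fin (d i)), q = ⟨i, j⟩ → z q.1 q.2 = z i j := by
        rintro _ rfl; rfl
      exact key _ (finSigmaFinEquiv.symm_apply_apply _)
  spec m k := by
    rw [mul_assoc, Ψ.spec, (F _).spec]
    simp

/-- `𝕊(U)`: the CP structures obtained from `(Σ, π_1, π_2)` and `(id, 1)` by combination. -/
inductive InS {U : Type u} [Monoid U] (S : CP U 2) : ∀ {d : ℕ}, CP U d → Prop
  | base : InS S S
  | one : InS S (CP.one U)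
  | comb {s : ℕ} {Ψ : CP U s} {d : Fin s → ℕ} {F : ∀ i, CP U (d i)} :
      InS S Ψ → (∀ i, InS S (F i)) → InS S (Ψ.comb F)

/-- `ψ(σ) = Φ(τ_{σ⁻¹(1)}, …, τ_{σ⁻¹(d)})`. -/
def CP.psi {U : Type u} [Monoid U] {d : ℕ} (T : CP U d) (σ : Equiv.Perm (Fin d)) : U :=
  T.Φ fun i => T.τ (σ⁻¹ i)

/-- `(U, Σ, π_1, π_2)` is a universal CP monoid: an initial object of the category of CP monoids. -/
def IsUniversal {U : Type u} [Monoid U] (S : CP U 2) : Prop :=
  ∀ (N : Type u) [Monoid N] (T : CP N 2), ∃! f : U →* N,
    (∀ i, f (S.τ i) = T.τ i) ∧ ∀ m, f (S.Φ m) = T.Φ fun i => f (m i)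

/-! ### Words -/

section words

variable {M : Type u} [Monoid M]

theorem CP.ext' {d : ℕ} (T : CP M d) {x y : M} (h : ∀ i, T.τ i * x = T.τ i * y) : x = y := by
  obtain ⟨m, rfl⟩ := T.bij.2 x
  obtain ⟨m', rfl⟩ := T.bij.2 y
  congr 1
  funext i
  have := h i
  rwa [T.spec, T.spec] at this

/-- letters -/
def bi (i : Fin 2) : Bool := decide (i = 1)

def idx (b : Bool) : Fin 2 := if b then 1 else 0

theorem idx_bi (i : Fin 2) : idx (bi i) = i := by fin_cases i <;> rfl

theorem bi_idx (b : Bool) : bi (idx b) = b := by cases b <;> rfl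

/-- the value of a word -/
def wd (S : CP M 2) : List Bool → M
  | [] => 1
  | b :: w => wd S w * S.τ (idx b)

theorem wd_append (S : CP M 2) (a b : List Bool) : wd S (a ++ b) = wd S b * wd S a := by
  induction a with
  | nil => simp [wd]
  | cons x a ih => simp [wd, ih, mul_assoc]

theorem wd_single (S : CP M 2) (b : Bool) : wd S [b] = S.τ (idx b) := by simp [wd]

theorem wd_concat (S : CP M 2) (a : List Bool) (b : Bool) :
    wd S (a ++ [b]) = S.τ (idx b) * wd S a := by rw [wd_append, wd_single]

theorem ext_letter (S : CP M 2) {x y : M} (h : ∀ b, S.τ (idx b) * x = S.τ (idx b) * y) : x = y :=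
  S.ext' fun i => by have := h (bi i); rwa [idx_bi] at this

theorem ext_words (S : CP M 2) (n : ℕ) : ∀ {x y : M},
    (∀ a : List Bool, a.length = n → wd S a * x = wd S a * y) → x = y := by
  induction n with
  | zero => intro x y h; simpa [wd] using h [] rfl
  | succ n ih =>
    intro x y h
    refine ext_letter S fun b => ih fun a ha => ?_
    have := h (b :: a) (by simp [ha])
    simpa [wd, mul_assoc] using this

/-- an element with prescribed components -/
def full (S : CP M 2) : ℕ → (List Bool → M) → M
  | 0, m => m []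
  | n + 1, m => S.Φ fun i => full S n fun a => m (bi i :: a)

theorem full_spec (S : CP M 2) (n : ℕ) : ∀ (m : List Bool → M) (a : List Bool), a.length = n →
    wd S a * full S n m = m a := by
  induction n with
  | zero => intro m a ha; rw [List.length_eq_zero_iff.1 ha]; simp [wd, full]
  | succ n ih =>
    intro m a ha
    cases a with
    | nil => simp at ha
    | cons b a =>
      rw [wd, full, mul_assoc, S.spec, ih _ _ (by simpa using ha), bi_idx]

/-- `p` is represented at level `n` by the words `w a`, `a` of length `n`. -/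
def Rep (S : CP M 2) (p : M) (n : ℕ) (w : List Bool → List Bool) : Prop :=
  ∀ a : List Bool, a.length = n → wd S a * p = wd S (w a)

theorem Rep.add {S : CP M 2} {p : M} {n : ℕ} {w : List Bool → List Bool} (h : Rep S p n w) (k : ℕ) :
    Rep S p (n + k) fun a => w (a.take n) ++ a.drop n := by
  intro a ha
  have h1 : a = a.take n ++ a.drop n := (List.take_append_drop n a).symm
  have h2 : wd S a = wd S (a.drop n) * wd S (a.take n) := by
    conv_lhs => rw [h1]
    exact wd_append S _ _
  rw [h2, mul_assoc, h _ (by rw [List.length_take]; omega), wd_append]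

theorem Rep.mul {S : CP M 2} {p q : M} {n m : ℕ} {w v : List Bool → List Bool}
    (h : Rep S p n w) (h' : Rep S q m v) (hw : ∀ a, a.length = n → m ≤ (w a).length) :
    Rep S (p * q) n fun a => v ((w a).take m) ++ (w a).drop m := by
  intro a ha
  have h1 : w a = (w a).take m ++ (w a).drop m := (List.take_append_drop m _).symm
  have h2 : wd S (w a) = wd S ((w a).drop m) * wd S ((w a).take m) := by
    conv_lhs => rw [h1]
    exact wd_append S _ _
  rw [← mul_assoc, h a ha, h2, mul_assoc, h' _ (by rw [List.length_take]; have := hw a ha; omega),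
    wd_append]

theorem Rep.phi {S : CP M 2} {m : Fin 2 → M} {n : ℕ} {w : Fin 2 → List Bool → List Bool}
    (h : ∀ i, Rep S (m i) n (w i)) :
    Rep S (S.Φ m) (n + 1) fun a => w (idx (a.headI)) a.tail := by
  intro a ha
  cases a with
  | nil => simp at ha
  | cons b a =>
    rw [wd, mul_assoc, S.spec]
    exact h _ _ (by simpa using ha)

theorem rep_letter (S : CP M 2) (i : Fin 2) : Rep S (S.τ i) 0 fun _ => [bi i] := by
  intro a ha
  rw [List.length_eq_zero_iff.1 ha, wd_single, idx_bi]
  simp [wd]

theorem rep_one (S : CP M 2) : Rep S 1 0 fun _ => [] := by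
  intro a ha
  rw [List.length_eq_zero_iff.1 ha]
  simp [wd]

/-- The submonoid of the elements which have a representation. -/
def tame (S : CP M 2) : Submonoid M where
  carrier := {p | ∃ n w, Rep S p n w}
  one_mem' := ⟨0, _, rep_one S⟩
  mul_mem' := by
    rintro p q ⟨n, w, h⟩ ⟨m, v, h'⟩
    refine ⟨n + m, _, (h.add m).mul h' ?_⟩
    intro a ha
    simp only [List.length_append, List.length_drop]
    omega

theorem tame_phi (S : CP M 2) {m : Fin 2 → M} (h : ∀ i, m i ∈ tame S) : S.Φ m ∈ tame S := by
  choose n w hw using h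
  refine ⟨n 0 + n 1 + 1, _, Rep.phi (w := fun i a => w i (a.take (n i)) ++ a.drop (n i)) ?_⟩
  intro i
  fin_cases i
  · exact (hw 0).add (n 1)
  · have := (hw 1).add (n 0)
    rwa [add_comm] at this

theorem tame_letter (S : CP M 2) (i : Fin 2) : S.τ i ∈ tame S := ⟨0, _, rep_letter S i⟩

/-- The CP structure of the submonoid of the elements which have a representation. -/
def tameCP (S : CP M 2) : CP (tame S) 2 where
  Φ m := ⟨S.Φ fun i => m i, tame_phi S fun i => (m i).2⟩
  τ i := ⟨S.τ i, tame_letter S i⟩
  bij := by
    constructor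
    · intro m m' h
      have := S.bij.1 (congrArg Subtype.val h)
      funext i
      exact Subtype.ext (congrFun this i)
    · rintro ⟨x, hx⟩
      refine ⟨fun i => ⟨S.τ i * x, mul_mem (tame_letter S i) hx⟩, Subtype.ext ?_⟩
      exact S.ext' fun i => by rw [S.spec]
  spec m i := Subtype.ext (S.spec _ i)

end words

/-- In a universal CP monoid every element has a representation. -/
theorem mem_tame {U : Type u} [Monoid U] {S : CP U 2} (hS : IsUniversal S) (x : U) :
    x ∈ tame S := by
  obtain ⟨f, ⟨hf1, hf2⟩, -⟩ := hS (tame S) (tameCP S)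
  obtain ⟨g, -, hg⟩ := hS U S
  have h1 := hg ((tame S).subtype.comp f) ⟨fun i => by simp [hf1, tameCP],
    fun m => by simp [hf2, tameCP]⟩
  have h2 := hg (MonoidHom.id U) ⟨fun i => rfl, fun m => rfl⟩
  have h3 : ((f x : tame S) : U) = x := by
    have := DFunLike.congr_fun (h1.trans h2.symm) x
    simpa using this
  rw [← h3]
  exact (f x).2

/-! ### The model: self-maps of the Cantor space -/

/-- infinite sequences of letters -/
abbrev Seq : Type u := ULift.{u} (ℕ → Bool)

def consS (b : Bool) (x : Seq.{u}) : Seq.{u} := ⟨fun n => Nat.casesOn n b x.down⟩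

def headS (x : Seq.{u}) : Bool := x.down 0

def tailS (x : Seq.{u}) : Seq.{u} := ⟨fun n => x.down (n + 1)⟩

theorem headS_cons (b : Bool) (x : Seq.{u}) : headS (consS b x) = b := rfl

theorem tailS_cons (b : Bool) (x : Seq.{u}) : tailS (consS b x) = x := rfl

theorem cons_head_tail (x : Seq.{u}) : consS (headS x) (tailS x) = x := by
  apply ULift.ext
  funext n
  cases n <;> rfl

/-- The self-maps of the Cantor space, with the product `p * q = q ∘ p`. -/
abbrev Model : Type u := (Function.End Seq.{u})ᵐᵒᵖ

def modelCP : CP Model.{u} 2 where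
  Φ m := MulOpposite.op fun x => (m (idx (headS x))).unop (tailS x)
  τ i := MulOpposite.op fun x => consS (bi i) x
  bij := by
    constructor
    · intro m m' h
      funext i
      have h1 := congrArg MulOpposite.unop h
      apply MulOpposite.unop_injective
      funext x
      have h2 := congrFun h1 (consS (bi i) x)
      change (m (idx (headS (consS (bi i) x)))).unop (tailS (consS (bi i) x)) =
        (m' (idx (headS (consS (bi i) x)))).unop (tailS (consS (bi i) x)) at h2
      rwa [headS_cons, tailS_cons, idx_bi] at h2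
    · intro p
      refine ⟨fun i => MulOpposite.op fun x => p.unop (consS (bi i) x), ?_⟩
      apply MulOpposite.unop_injective
      funext x
      show p.unop (consS (bi (idx (headS x))) (tailS x)) = p.unop x
      rw [bi_idx, cons_head_tail]
  spec m i := by
    apply MulOpposite.unop_injective
    funext x
    show (m (idx (headS (consS (bi i) x)))).unop (tailS (consS (bi i) x)) = (m i).unop x
    rw [headS_cons, tailS_cons, idx_bi]

/-- a word followed by a sequence -/
def app : List Bool → Seq.{u} → Seq.{u}
  | [], x => x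
  | b :: a, x => consS b (app a x)

theorem app_append (a b : List Bool) (x : Seq.{u}) : app (a ++ b) x = app a (app b x) := by
  induction a with
  | nil => rfl
  | cons c a ih => simp [app, ih]

theorem wd_model (a : List Bool) (x : Seq.{u}) : (wd modelCP a).unop x = app a x := by
  induction a generalizing x with
  | nil => rfl
  | cons b a ih =>
    show consS (bi (idx b)) ((wd modelCP a).unop x) = _
    rw [ih, bi_idx, app]

theorem consS_inj {b c : Bool} {x y : Seq.{u}} (h : consS b x = consS c y) : b = c ∧ x = y :=
  ⟨congrArg headS h, congrArg tailS h⟩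

theorem app_prefix : ∀ (a b : List Bool) {x y : Seq.{u}}, app a x = app b y → a <+: b ∨ b <+: a := by
  intro a
  induction a with
  | nil => intro b x y _; exact Or.inl (List.nil_prefix)
  | cons c a ih =>
    intro b x y h
    cases b with
    | nil => exact Or.inr (List.nil_prefix)
    | cons d b =>
      obtain ⟨h1, h2⟩ := consS_inj h
      subst h1
      rcases ih b h2 with h3 | h3
      · exact Or.inl (List.prefix_cons_inj c |>.2 h3)
      · exact Or.inr (List.prefix_cons_inj c |>.2 h3)

theorem app_length {a b : List Bool} (hl : a.length = b.length) {x y : Seq.{u}}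
    (h : app a x = app b y) : a = b := by
  rcases app_prefix a b h with h1 | h1
  · exact h1.eq_of_length hl
  · exact (h1.eq_of_length hl.symm).symm

theorem app_injective (a : List Bool) : Function.Injective (app.{u} a) := by
  induction a with
  | nil => exact fun _ _ h => h
  | cons b a ih => exact fun x y h => ih (consS_inj h).2

theorem exists_app (n : ℕ) (x : Seq.{u}) : ∃ a : List Bool, a.length = n ∧ ∃ y, x = app a y := by
  induction n generalizing x with
  | zero => exact ⟨[], rfl, x, rfl⟩
  | succ n ih =>
    obtain ⟨a, ha, y, hy⟩ := ih (tailS x)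
    refine ⟨headS x :: a, by simp [ha], y, ?_⟩
    rw [app, ← hy, cons_head_tail]

/-- different words have different values in the model -/
theorem wd_model_inj {a b : List Bool} (h : wd modelCP.{u} a = wd modelCP b) : a = b := by
  have h1 : ∀ x : Seq.{u}, app a x = app b x := fun x => by rw [← wd_model, ← wd_model, h]
  have key : ∀ (a b : List Bool), (∀ x : Seq.{u}, app a x = app b x) → a.length ≤ b.length := by
    intro a b h1
    by_contra hlt
    push Not at hlt
    rcases app_prefix a b (h1 ⟨fun _ => false⟩) with h2 | h2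
    · have := h2.length_le; omega
    · obtain ⟨t, rfl⟩ := h2
      have h3 : ∀ x : Seq.{u}, app t x = x := fun x => app_injective b (by
        rw [← app_append]; exact h1 x)
      cases t with
      | nil => simp at hlt
      | cons c t =>
        have h4 := congrArg headS (h3 ⟨fun _ => !c⟩)
        simp only [app, headS_cons] at h4
        change c = !c at h4
        cases c <;> simp at h4
  exact app_length (le_antisymm (key a b h1) (key b a fun x => (h1 x).symm)) (h1 ⟨fun _ => false⟩)

/-! ### Existence of the universal CP monoid -/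

/-- The element of `M` which corresponds to an element of the model. -/
theorem exists_unique_image {M : Type u} [Monoid M] (T : CP M 2) {p : Model.{u}}
    (hp : p ∈ tame modelCP.{u}) :
    ∃ y : M, ∀ n w, Rep modelCP p n w → Rep T y n w := by
  obtain ⟨k, v, hv⟩ := hp
  refine ⟨full T k fun a => wd T (v a), fun n w hw a ha => ?_⟩
  refine ext_words T k fun t ht => ?_
  have e1 : a ++ t = (a ++ t).take k ++ (a ++ t).drop k := (List.take_append_drop k _).symm
  have e2 : ((a ++ t).take k).length = k := by
    rw [List.length_take, List.length_append]; omega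
  have e3 : v ((a ++ t).take k) ++ (a ++ t).drop k = w a ++ t := by
    apply wd_model_inj.{u}
    have h1 : wd modelCP.{u} (a ++ t) = wd modelCP ((a ++ t).drop k) * wd modelCP ((a ++ t).take k) := by
      conv_lhs => rw [e1]
      exact wd_append _ _ _
    rw [wd_append, ← hv _ e2, ← mul_assoc, ← h1, wd_append modelCP a t, mul_assoc, hw a ha, wd_append]
  have h2 : wd T (a ++ t) = wd T ((a ++ t).drop k) * wd T ((a ++ t).take k) := by
    conv_lhs => rw [e1]
    exact wd_append _ _ _
  rw [← mul_assoc, ← wd_append, h2, mul_assoc, full_spec T k _ _ e2, ← wd_append, e3, wd_append]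

/-- An element with the same representation at one level is the image. -/
theorem image_unique {M : Type u} [Monoid M] (T : CP M 2) {y z : M} {n : ℕ}
    {w : List Bool → List Bool} (hy : Rep T y n w) (hz : Rep T z n w) : y = z :=
  ext_words T n fun a ha => by rw [hy a ha, hz a ha]

open Classical in
/-- The CP monoid of the tame elements of the model is universal. -/
theorem universal_exists : IsUniversal (tameCP modelCP.{u}) := by
  intro N _ T
  have hex : ∀ p : tame modelCP.{u}, ∃ y : N, ∀ n w, Rep modelCP (p : Model.{u}) n w → Rep T y n w :=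
    fun p => exists_unique_image T p.2
  choose g hg using hex
  have huniq : ∀ (p : tame modelCP.{u}) (y : N) (n : ℕ) (w : List Bool → List Bool),
      Rep modelCP (p : Model.{u}) n w → Rep T y n w → g p = y :=
    fun p y n w h1 h2 => image_unique T (hg p n w h1) h2
  have hmul : ∀ p q : tame modelCP.{u}, g (p * q) = g p * g q := by
    intro p q
    obtain ⟨n, w, h⟩ := p.2
    obtain ⟨m, v, h'⟩ := q.2
    have hl : ∀ a : List Bool, a.length = n + m → m ≤ (w (a.take n) ++ a.drop n).length := by
      intro a ha
      simp only [List.length_append, List.length_drop]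
      omega
    exact huniq _ _ _ _ ((h.add m).mul h' hl) (((hg p n w h).add m).mul (hg q m v h') hl)
  have hone : g 1 = 1 := huniq _ _ _ _ (rep_one _) (rep_one _)
  refine ⟨⟨⟨g, hone⟩, hmul⟩, ⟨fun i => huniq _ _ _ _ (rep_letter _ i) (rep_letter _ i), ?_⟩, ?_⟩
  · intro m
    have h := fun i => (m i).2
    choose n w hw using h
    have hw' : ∀ i, Rep modelCP.{u} ((m i : tame modelCP.{u}) : Model.{u}) (n 0 + n 1)
        ((fun i a => w i (a.take (n i)) ++ a.drop (n i)) i) := by
      intro i
      fin_cases i
      · exact (hw 0).add (n 1)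
      · have := (hw 1).add (n 0)
        rwa [add_comm] at this
    exact huniq _ _ _ _ (Rep.phi hw') (Rep.phi fun i => hg (m i) _ _ (hw' i))
  · rintro f ⟨hf1, hf2⟩
    have hfw : ∀ a, f (wd (tameCP modelCP.{u}) a) = wd T a := by
      intro a
      induction a with
      | nil => exact map_one f
      | cons b a ih => rw [wd, map_mul, ih, hf1, wd]
    have hcoe : ∀ a, ((wd (tameCP modelCP.{u}) a : tame modelCP.{u}) : Model.{u}) = wd modelCP a := by
      intro a
      induction a with
      | nil => rfl
      | cons b a ih => rw [wd, Submonoid.coe_mul, ih, wd]; rfl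
    apply MonoidHom.ext
    intro p
    obtain ⟨n, w, h⟩ := p.2
    refine (huniq p (f p) n w h ?_).symm
    intro a ha
    rw [← hfw, ← map_mul, ← hfw]
    congr 1
    apply Subtype.ext
    rw [Submonoid.coe_mul, hcoe, hcoe]
    exact h a ha

/-! ### Trees with given leaves -/

section trees

variable {U : Type u} [Monoid U] {S : CP U 2}

/-- The elements of the images of the symmetric groups. -/
def gens (S : CP U 2) : Set Uˣ :=
  {x | ∃ (d : ℕ) (T : CP U d) (σ : Equiv.Perm (Fin d)), 2 ≤ d ∧ InS S T ∧ (x : U) = T.psi σ}

/-- a CP structure in `𝕊(U)` with the addresses of its leaves -/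
structure LT (S : CP U 2) where
  d : ℕ
  T : CP U d
  ℓ : Fin d → List Bool
  mem : InS S T
  val : ∀ i, T.τ i = wd S (ℓ i)
  comp : ∀ c : List Bool, (∃ i, ℓ i <+: c) ∨ ∃ i, c <+: ℓ i

def LT.one (S : CP U 2) : LT S where
  d := 1
  T := CP.one U
  ℓ _ := []
  mem := InS.one
  val _ := rfl
  comp _ := Or.inl ⟨0, List.nil_prefix⟩

theorem node_aux (F : Fin 2 → LT S) (i : Fin 2) (j : Fin (F i).d) :
    (fun k : Fin (∑ i, (F i).d) => bi (finSigmaFinEquiv.symm k).1 ::
      (F (finSigmaFinEquiv.symm k).1).ℓ (finSigmaFinEquiv.symm k).2) (finSigmaFinEquiv ⟨i, j⟩) =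
    bi i :: (F i).ℓ j := by
  have key : ∀ q : (Σ i, Fin (F i).d), q = ⟨i, j⟩ → bi q.1 :: (F q.1).ℓ q.2 = bi i :: (F i).ℓ j := by
    rintro _ rfl; rfl
  exact key _ (finSigmaFinEquiv.symm_apply_apply _)

def LT.node (F : Fin 2 → LT S) : LT S where
  d := ∑ i, (F i).d
  T := S.comb fun i => (F i).T
  ℓ k := bi (finSigmaFinEquiv.symm k).1 ::
      (F (finSigmaFinEquiv.symm k).1).ℓ (finSigmaFinEquiv.symm k).2
  mem := InS.comb InS.base fun i => (F i).mem
  val k := by
    show (F (finSigmaFinEquiv.symm k).1).T.τ (finSigmaFinEquiv.symm k).2 *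
      S.τ (finSigmaFinEquiv.symm k).1 = _
    rw [(F _).val, wd, idx_bi]
  comp c := by
    cases c with
    | nil =>
      right
      rcases (F 0).comp [] with ⟨j, -⟩ | ⟨j, -⟩
      · exact ⟨finSigmaFinEquiv ⟨0, j⟩, List.nil_prefix⟩
      · exact ⟨finSigmaFinEquiv ⟨0, j⟩, List.nil_prefix⟩
    | cons b c =>
      rcases (F (idx b)).comp c with ⟨j, hj⟩ | ⟨j, hj⟩
      · left
        refine ⟨finSigmaFinEquiv ⟨idx b, j⟩, ?_⟩
        have := node_aux F (idx b) j
        simp only at this
        rw [this, bi_idx]
        exact (List.prefix_cons_inj b).2 hj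
      · right
        refine ⟨finSigmaFinEquiv ⟨idx b, j⟩, ?_⟩
        have := node_aux F (idx b) j
        simp only at this
        rw [this, bi_idx]
        exact (List.prefix_cons_inj b).2 hj

theorem node_leaf (F : Fin 2 → LT S) (i : Fin 2) (j : Fin (F i).d) :
    (LT.node F).ℓ (finSigmaFinEquiv ⟨i, j⟩) = bi i :: (F i).ℓ j := node_aux F i j

theorem exists_leaf (S : CP U 2) (w : List Bool) : ∃ L : LT S, ∃ i, L.ℓ i = w := by
  induction w with
  | nil => exact ⟨LT.one S, (0 : Fin 1), rfl⟩
  | cons b w ih =>
    obtain ⟨L, i, hi⟩ := ih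
    let F : Fin 2 → LT S := fun _ => L
    refine ⟨LT.node F, finSigmaFinEquiv ⟨idx b, i⟩, ?_⟩
    rw [node_leaf, bi_idx, hi]

theorem exists_two_leaves (S : CP U 2) : ∀ a b : List Bool, ¬ a <+: b → ¬ b <+: a →
    ∃ L : LT S, ∃ i j, L.ℓ i = a ∧ L.ℓ j = b := by
  intro a
  induction a with
  | nil => intro b h; exact absurd List.nil_prefix h
  | cons x a ih =>
    intro b h1 h2
    cases b with
    | nil => exact absurd List.nil_prefix h2
    | cons y b =>
      by_cases hxy : x = y
      · subst hxy
        obtain ⟨L, i, j, hi, hj⟩ := ih b (fun h => h1 ((List.prefix_cons_inj x).2 h))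
          (fun h => h2 ((List.prefix_cons_inj x).2 h))
        let F : Fin 2 → LT S := fun _ => L
        refine ⟨LT.node F, finSigmaFinEquiv ⟨idx x, i⟩, finSigmaFinEquiv ⟨idx x, j⟩, ?_, ?_⟩
        · rw [node_leaf, bi_idx, hi]
        · rw [node_leaf, bi_idx, hj]
      · obtain ⟨L, i, hi⟩ := exists_leaf S a
        obtain ⟨L', j, hj⟩ := exists_leaf S b
        have key : ∀ F : Fin 2 → LT S, F (idx x) = L → F (idx y) = L' →
            ∃ L : LT S, ∃ i j, L.ℓ i = x :: a ∧ L.ℓ j = y :: b := by
          rintro F rfl rfl
          refine ⟨LT.node F, finSigmaFinEquiv ⟨idx x, i⟩, finSigmaFinEquiv ⟨idx y, j⟩, ?_, ?_⟩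
          · rw [node_leaf, bi_idx, hi]
          · rw [node_leaf, bi_idx, hj]
        refine key (fun k => if k = idx x then L else L') (if_pos rfl) (if_neg ?_)
        intro h
        apply hxy
        rw [← bi_idx x, ← bi_idx y, h]

/-- The transposition of two cones. -/
theorem exists_swap (S : CP U 2) {a b : List Bool} (hab : ¬ a <+: b) (hba : ¬ b <+: a) :
    ∃ g : Uˣ, g ∈ gens S ∧ wd S a * g = wd S b ∧ wd S b * g = wd S a ∧
      ∀ c : List Bool, ¬ a <+: c → ¬ c <+: a → ¬ b <+: c → ¬ c <+: b → wd S c * g = wd S c := by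
  obtain ⟨L, i, j, hi, hj⟩ := exists_two_leaves S a b hab hba
  have hij : i ≠ j := by
    rintro rfl
    exact hab (hi ▸ hj ▸ List.prefix_rfl)
  have hτ : ∀ k, L.T.τ k * L.T.psi (Equiv.swap i j) = L.T.τ (Equiv.swap i j k) := by
    intro k
    rw [CP.psi, L.T.spec, Equiv.swap_inv]
  have hgg : L.T.psi (Equiv.swap i j) * L.T.psi (Equiv.swap i j) = 1 := by
    refine L.T.ext' fun k => ?_
    rw [← mul_assoc, hτ, hτ, Equiv.swap_apply_self, mul_one]
  refine ⟨⟨L.T.psi (Equiv.swap i j), L.T.psi (Equiv.swap i j), hgg, hgg⟩,
    ⟨L.d, L.T, Equiv.swap i j, ?_, L.mem, rfl⟩, ?_, ?_, ?_⟩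
  · have h1 := i.2
    have h2 := j.2
    have h3 : (i : ℕ) ≠ j := fun h => hij (Fin.ext h)
    omega
  · show wd S a * L.T.psi (Equiv.swap i j) = wd S b
    rw [← hi, ← hj, ← L.val, ← L.val, hτ, Equiv.swap_apply_left]
  · show wd S b * L.T.psi (Equiv.swap i j) = wd S a
    rw [← hi, ← hj, ← L.val, ← L.val, hτ, Equiv.swap_apply_right]
  · show ∀ c : List Bool, _ → _ → _ → _ → wd S c * L.T.psi (Equiv.swap i j) = wd S c
    obtain ⟨B, hB⟩ : ∃ B, ∀ k, (L.ℓ k).length ≤ B :=
      ⟨∑ k, (L.ℓ k).length, fun k =>
        Finset.single_le_sum (f := fun k => (L.ℓ k).length) (fun _ _ => Nat.zero_le _)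
          (Finset.mem_univ k)⟩
    have main : ∀ (n : ℕ) (c : List Bool), B ≤ c.length + n → ¬ a <+: c → ¬ c <+: a →
        ¬ b <+: c → ¬ c <+: b → wd S c * L.T.psi (Equiv.swap i j) = wd S c := by
      intro n
      induction n with
      | zero =>
        intro c hc h1 h2 h3 h4
        have : ∃ k, L.ℓ k <+: c := by
          rcases L.comp c with h | ⟨k, hk⟩
          · exact h
          · refine ⟨k, ?_⟩
            have h5 := hk.length_le
            have h6 := hB k
            rw [hk.eq_of_length (by omega)]
        obtain ⟨k, t, rfl⟩ := this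
        have hki : k ≠ i := by rintro rfl; exact h1 (hi ▸ List.prefix_append _ _)
        have hkj : k ≠ j := by rintro rfl; exact h3 (hj ▸ List.prefix_append _ _)
        rw [wd_append, mul_assoc, ← L.val, hτ, Equiv.swap_apply_of_ne_of_ne hki hkj]
      | succ n ih =>
        intro c hc h1 h2 h3 h4
        by_cases hk : ∃ k, L.ℓ k <+: c
        · obtain ⟨k, t, rfl⟩ := hk
          have hki : k ≠ i := by rintro rfl; exact h1 (hi ▸ List.prefix_append _ _)
          have hkj : k ≠ j := by rintro rfl; exact h3 (hj ▸ List.prefix_append _ _)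
          rw [wd_append, mul_assoc, ← L.val, hτ, Equiv.swap_apply_of_ne_of_ne hki hkj]
        · refine ext_letter S fun x => ?_
          rw [← mul_assoc, ← wd_concat]
          refine ih (c ++ [x]) (by simp; omega) ?_ ?_ ?_ ?_
          · intro h
            rcases List.prefix_concat_iff.1 h with h | h
            · exact h2 (h ▸ List.prefix_append _ _)
            · exact h1 h
          · exact fun h => h2 ((List.prefix_append _ _).trans h)
          · intro h
            rcases List.prefix_concat_iff.1 h with h | h
            · exact h4 (h ▸ List.prefix_append _ _)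
            · exact h3 h
          · exact fun h => h4 ((List.prefix_append _ _).trans h)
    exact fun c => main B c (by omega)

end trees

/-! ### The main argument -/

section main

variable {U : Type u} [Monoid U] {S : CP U 2}

/-- The words of a representation of a unit form a complete prefix code. -/
theorem code_props (hS : IsUniversal S) (x : Uˣ) {n : ℕ} {w : List Bool → List Bool}
    (h : Rep S (x : U) n w) :
    (∀ a b : List Bool, a.length = n → b.length = n → w a <+: w b → a = b) ∧
      ∀ c : List Bool, ∃ a : List Bool, a.length = n ∧ (w a <+: c ∨ c <+: w a) := by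
  obtain ⟨f, ⟨hf1, -⟩, -⟩ := hS Model modelCP
  have hfw : ∀ a, f (wd S a) = wd modelCP a := by
    intro a
    induction a with
    | nil => exact map_one f
    | cons b a ih => rw [wd, map_mul, ih, hf1, wd]
  set F : Seq.{u} → Seq.{u} := (f (x : U)).unop with hF
  set F' : Seq.{u} → Seq.{u} := (f ((x⁻¹ : Uˣ) : U)).unop with hF'
  have h1 : ∀ z, F' (F z) = z := by
    intro z
    have h2 : f (x : U) * f ((x⁻¹ : Uˣ) : U) = 1 := by
      rw [← map_mul, Units.mul_inv, map_one]
    exact congrFun (congrArg MulOpposite.unop h2) z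
  have h1' : ∀ z, F (F' z) = z := by
    intro z
    have h2 : f ((x⁻¹ : Uˣ) : U) * f (x : U) = 1 := by
      rw [← map_mul, Units.inv_mul, map_one]
    exact congrFun (congrArg MulOpposite.unop h2) z
  have h2 : ∀ a : List Bool, a.length = n → ∀ z, F (app a z) = app (w a) z := by
    intro a ha z
    have h3 : wd modelCP a * f (x : U) = wd modelCP (w a) := by
      rw [← hfw, ← map_mul, h a ha, hfw]
    have h4 := congrFun (congrArg MulOpposite.unop h3) z
    change F ((wd modelCP a).unop z) = (wd modelCP (w a)).unop z at h4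
    rw [wd_model, wd_model] at h4
    exact h4
  constructor
  · intro a b ha hb hab
    obtain ⟨t, ht⟩ := hab
    have h3 : F (app a (app t ⟨fun _ => false⟩)) = F (app b ⟨fun _ => false⟩) := by
      rw [h2 a ha, h2 b hb, ← app_append, ht]
    have h4 := congrArg F' h3
    rw [h1, h1] at h4
    exact app_length (ha.trans hb.symm) h4
  · intro c
    obtain ⟨a, ha, y, hy⟩ := exists_app n (F' (app c ⟨fun _ => false⟩))
    have h3 : app (w a) y = app c ⟨fun _ => false⟩ := by
      rw [← h2 a ha, ← hy, h1']
    exact ⟨a, ha, app_prefix _ _ h3⟩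

/-- the words of length `n` -/
def W (n : ℕ) : Finset (List Bool) := Finset.univ.image (List.ofFn : (Fin n → Bool) → List Bool)

theorem mem_W {n : ℕ} {a : List Bool} : a ∈ W n ↔ a.length = n := by
  constructor
  · intro h
    obtain ⟨g, -, rfl⟩ := Finset.mem_image.1 h
    exact List.length_ofFn
  · rintro rfl
    exact Finset.mem_image.2 ⟨a.get, Finset.mem_univ _, List.ofFn_get a⟩

theorem incomp_of_length {a b : List Bool} (h : a.length = b.length) (hab : a ≠ b) :
    ¬ a <+: b := fun h' => hab (h'.eq_of_length h)

/-- permutations of the words of length `n` -/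
theorem perm_case (hS : IsUniversal S) {n : ℕ} : ∀ (k : ℕ) (x : Uˣ) (w : List Bool → List Bool),
    Rep S (x : U) n w → (∀ a, a.length = n → (w a).length = n) →
    ((W n).filter fun a => w a ≠ a).card = k → x ∈ Subgroup.closure (gens S) := by
  intro k
  induction k using Nat.strong_induction_on with
  | _ k ih =>
    intro x w h hl hk
    by_cases hid : ∀ a : List Bool, a.length = n → w a = a
    · have : (x : U) = 1 := ext_words S n fun a ha => by rw [h a ha, hid a ha, mul_one]
      rw [show x = 1 from Units.ext this]
      exact one_mem _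
    · push Not at hid
      obtain ⟨a, ha, haw⟩ := hid
      obtain ⟨pf, -⟩ := code_props hS x h
      obtain ⟨g, hg, g1, g2, g3⟩ := exists_swap S (a := w a) (b := a)
        (incomp_of_length ((hl a ha).trans ha.symm) haw)
        (incomp_of_length (ha.trans (hl a ha).symm) haw.symm)
      have hrep : Rep S ((x * g : Uˣ) : U) n fun b => Equiv.swap (w a) a (w b) := by
        intro b hb
        rw [Units.val_mul, ← mul_assoc, h b hb]
        show wd S (w b) * (g : U) = wd S (Equiv.swap (w a) a (w b))
        by_cases e1 : w b = w a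
        · rw [e1, g1, Equiv.swap_apply_left]
        by_cases e2 : w b = a
        · rw [e2, g2, Equiv.swap_apply_right]
        rw [Equiv.swap_apply_of_ne_of_ne e1 e2]
        have lb := hl b hb
        have la := hl a ha
        exact g3 _ (incomp_of_length (la.trans lb.symm) (Ne.symm e1))
          (incomp_of_length (lb.trans la.symm) e1)
          (incomp_of_length (ha.trans lb.symm) (Ne.symm e2))
          (incomp_of_length (lb.trans ha.symm) e2)
      have hmem : x * g ∈ Subgroup.closure (gens S) := by
        refine ih _ ?_ (x * g) _ hrep ?_ rfl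
        · rw [← hk]
          apply Finset.card_lt_card
          rw [Finset.ssubset_iff_of_subset]
          · refine ⟨a, Finset.mem_filter.2 ⟨mem_W.2 ha, haw⟩, ?_⟩
            intro hmem
            exact (Finset.mem_filter.1 hmem).2 (Equiv.swap_apply_left _ _)
          · intro b hb
            rw [Finset.mem_filter] at hb ⊢
            refine ⟨hb.1, fun hbw => hb.2 ?_⟩
            have e2 : b ≠ a := by rintro rfl; exact haw hbw
            have e1 : b ≠ w a := by
              intro e
              have h5 : w b = w a := hbw.trans e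
              exact e2 (pf b a (mem_W.1 hb.1) ha (h5 ▸ List.prefix_rfl))
            rw [hbw, Equiv.swap_apply_of_ne_of_ne e1 e2]
        · intro b hb
          by_cases e1 : w b = w a
          · rw [e1, Equiv.swap_apply_left]; exact ha
          by_cases e2 : w b = a
          · rw [e2, Equiv.swap_apply_right]; exact hl a ha
          rw [Equiv.swap_apply_of_ne_of_ne e1 e2]
          exact hl b hb
      have : x = x * g * g⁻¹ := by group
      rw [this]
      exact mul_mem hmem (inv_mem (Subgroup.subset_closure hg))

/-- If no word is longer than `n`, then all have length `n`. -/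
theorem length_eq {n : ℕ} {w : List Bool → List Bool}
    (pf : ∀ a b : List Bool, a.length = n → b.length = n → w a <+: w b → a = b)
    (hle : ∀ a : List Bool, a.length = n → (w a).length ≤ n) {a : List Bool} (ha : a.length = n) :
    (w a).length = n := by
  set θ : List Bool → List Bool := fun e => w e ++ List.replicate (n - (w e).length) false with hθ
  have hmaps : ∀ e ∈ W n, θ e ∈ W n := by
    intro e he
    rw [mem_W] at he ⊢
    have := hle e he
    simp only [hθ, List.length_append, List.length_replicate]
    omega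
  have hcomp : ∀ {p q c : List Bool}, p <+: c → q <+: c → p <+: q ∨ q <+: p := by
    intro p q c h1 h2
    rcases le_total p.length q.length with h | h
    · exact Or.inl (List.prefix_of_prefix_length_le h1 h2 h)
    · exact Or.inr (List.prefix_of_prefix_length_le h2 h1 h)
  have hinj : ∀ e ∈ W n, ∀ e' ∈ W n, θ e = θ e' → e = e' := by
    intro e he e' he' h
    have h1 : w e <+: θ e := List.prefix_append _ _
    have h2 : w e' <+: θ e := h ▸ List.prefix_append _ _
    rcases hcomp h1 h2 with h3 | h3
    · exact pf _ _ (mem_W.1 he) (mem_W.1 he') h3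
    · exact (pf _ _ (mem_W.1 he') (mem_W.1 he) h3).symm
  have hsurj : ∀ c ∈ W n, ∃ e ∈ W n, θ e = c := by
    have := Finset.surj_on_of_inj_on_of_card_le (s := W n) (t := W n) (fun e _ => θ e)
      (fun e he => hmaps e he) (fun e e' he he' h => hinj e he e' he' h) le_rfl
    intro c hc
    obtain ⟨e, he, h⟩ := this c hc
    exact ⟨e, he, h.symm⟩
  by_contra hne
  have hlt : (w a).length < n := lt_of_le_of_ne (hle a ha) hne
  obtain ⟨e, he, hec⟩ := hsurj (w a ++ true :: List.replicate (n - (w a).length - 1) false)
    (mem_W.2 (by simp only [List.length_append, List.length_cons, List.length_replicate]; omega))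
  have h1 : w a <+: w a ++ true :: List.replicate (n - (w a).length - 1) false :=
    List.prefix_append _ _
  have h2 : w e <+: w a ++ true :: List.replicate (n - (w a).length - 1) false :=
    hec ▸ List.prefix_append _ _
  have hea : e = a := by
    rcases hcomp h1 h2 with h3 | h3
    · exact (pf _ _ ha (mem_W.1 he) h3).symm
    · exact pf _ _ (mem_W.1 he) ha h3
  subst hea
  have h3 := List.append_cancel_left hec
  have h4 : n - (w e).length = (n - (w e).length - 1) + 1 := by omega
  rw [h4, List.replicate_succ] at h3
  simp at h3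

/-- Two prefixes of the same word are comparable. -/
theorem comp_of_prefix {p q c : List Bool} (h1 : p <+: c) (h2 : q <+: c) : p <+: q ∨ q <+: p := by
  rcases le_total p.length q.length with h | h
  · exact Or.inl (List.prefix_of_prefix_length_le h1 h2 h)
  · exact Or.inr (List.prefix_of_prefix_length_le h2 h1 h)

/-- If two words longer than `n` differ in the last letter only, then some word is shorter than
`n`. -/
theorem exists_short {n : ℕ} {w : List Bool → List Bool} {v : List Bool} {i : Bool}
    (co : ∀ c : List Bool, ∃ a : List Bool, a.length = n ∧ (w a <+: c ∨ c <+: w a))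
    {a b : List Bool} (ha : a.length = n) (hb : b.length = n) (hab : a ≠ b)
    (hwa : w a = v ++ [i]) (hwb : w b = v ++ [!i]) (hv : n ≤ v.length) :
    ∃ e : List Bool, e.length = n ∧ (w e).length < n := by
  by_contra hcon
  push Not at hcon
  have hmaps : ∀ e ∈ W n, (w e).take n ∈ W n := by
    intro e he
    rw [mem_W] at he ⊢
    have := hcon e he
    rw [List.length_take]
    omega
  have hcov : ∀ c ∈ W n, ∃ e, ∃ _ : e ∈ W n, (w e).take n = c := by
    intro c hc
    rw [mem_W] at hc
    obtain ⟨e, he, h⟩ := co c
    have hle := hcon e he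
    have h1 : c <+: w e := by
      rcases h with h | h
      · have h2 := h.length_le
        rw [h.eq_of_length (by omega)]
      · exact h
    obtain ⟨t, ht⟩ := h1
    refine ⟨e, mem_W.2 he, ?_⟩
    rw [← ht, ← hc, List.take_left']
    rfl
  have hinj := Finset.inj_on_of_surj_on_of_card_le (s := W n) (t := W n)
    (fun e _ => (w e).take n) hmaps hcov le_rfl
  apply hab
  refine hinj (mem_W.2 ha) (mem_W.2 hb) ?_
  rw [hwa, hwb, List.take_append_of_le_length hv, List.take_append_of_le_length hv]

theorem bool_aux : ∀ i j : Bool, ¬ j = i → j = !i := by decide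

theorem bool_aux' : ∀ i : Bool, i = !i → False := by decide

/-- Every unit is a product of elements of the images of the symmetric groups. -/
theorem unit_mem (hS : IsUniversal S) {n : ℕ} : ∀ (L : ℕ) (x : Uˣ) (w : List Bool → List Bool),
    Rep S (x : U) n w → ∑ a ∈ W n, (w a).length = L → x ∈ Subgroup.closure (gens S) := by
  intro L
  induction L using Nat.strong_induction_on with
  | _ L ih =>
    intro x w h hL
    obtain ⟨pf, co⟩ := code_props hS x h
    by_cases hle : ∀ a : List Bool, a.length = n → (w a).length ≤ n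
    · exact perm_case hS _ x w h (fun a ha => length_eq pf hle ha) rfl
    push Not at hle
    obtain ⟨a₀, ha₀, hlt₀⟩ := hle
    obtain ⟨a, haW, hmax⟩ := Finset.exists_max_image (W n) (fun a => (w a).length)
      ⟨a₀, mem_W.2 ha₀⟩
    have ha : a.length = n := mem_W.1 haW
    have hmax' : ∀ c : List Bool, c.length = n → (w c).length ≤ (w a).length :=
      fun c hc => hmax c (mem_W.2 hc)
    have hlt : n < (w a).length := lt_of_lt_of_le hlt₀ (hmax' a₀ ha₀)
    obtain ⟨v, i, hwa⟩ : ∃ v i, w a = v ++ [i] := by
      rcases List.eq_nil_or_concat (w a) with h0 | ⟨v, i, h0⟩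
      · rw [h0] at hlt; simp at hlt
      · exact ⟨v, i, by rw [h0, List.concat_eq_append]⟩
    have hal : (w a).length = v.length + 1 := by rw [hwa]; simp
    have hv : n ≤ v.length := by omega
    have hva : v <+: w a := hwa ▸ List.prefix_append _ _
    obtain ⟨b, hb, hwb⟩ : ∃ b : List Bool, b.length = n ∧ w b = v ++ [!i] := by
      obtain ⟨b, hb, h1⟩ := co (v ++ [!i])
      refine ⟨b, hb, ?_⟩
      rcases h1 with h1 | h1
      · rcases List.prefix_concat_iff.1 h1 with h2 | h2
        · exact h2
        · exfalso
          have h3 := pf b a hb ha (h2.trans hva)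
          subst h3
          have h4 := h2.length_le
          omega
      · have h2 := hmax' b hb
        have h3 := h1.length_le
        rw [h1.eq_of_length]
        simp only [List.length_append, List.length_singleton] at h3 ⊢
        omega
    have hbl : (w b).length = v.length + 1 := by rw [hwb]; simp
    have hab : a ≠ b := by
      rintro rfl
      rw [hwa] at hwb
      have h9 := List.append_cancel_left hwb
      rw [List.cons.injEq] at h9
      exact bool_aux' i h9.1
    obtain ⟨e, he, hes⟩ := exists_short co ha hb hab hwa hwb hv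
    have hea : e ≠ a := by rintro rfl; omega
    have heb : e ≠ b := by rintro rfl; omega
    obtain ⟨g, hg, g1, g2, g3⟩ := exists_swap S (a := w e) (b := v)
      (fun h1 => hea (pf e a he ha (h1.trans hva)))
      (fun h1 => by have := h1.length_le; omega)
    set w' : List Bool → List Bool := fun c =>
      if c = e then v else if c = a then w e ++ [i] else if c = b then w e ++ [!i] else w c with hw'
    have we : w' e = v := if_pos rfl
    have wa : w' a = w e ++ [i] := (if_neg hea.symm).trans (if_pos rfl)
    have wb : w' b = w e ++ [!i] := ((if_neg heb.symm).trans (if_neg hab.symm)).trans (if_pos rfl)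
    have wc : ∀ c, c ≠ e → c ≠ a → c ≠ b → w' c = w c := fun c h1 h2 h3 =>
      ((if_neg h1).trans (if_neg h2)).trans (if_neg h3)
    have hrep : Rep S ((x * g : Uˣ) : U) n w' := by
      intro c hc
      rw [Units.val_mul, ← mul_assoc, h c hc]
      by_cases h1 : c = e
      · rw [h1, g1, we]
      by_cases h2 : c = a
      · rw [h2, wa, hwa, wd_concat, mul_assoc, g2, wd_concat]
      by_cases h3 : c = b
      · rw [h3, wb, hwb, wd_concat, mul_assoc, g2, wd_concat]
      rw [wc c h1 h2 h3]
      refine g3 (w c) (fun h4 => h1 (pf e c he hc h4).symm) (fun h4 => h1 (pf c e hc he h4)) ?_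
        (fun h4 => h2 (pf c a hc ha (h4.trans hva)))
      rintro ⟨t, ht⟩
      have h5 := hmax' c hc
      rw [← ht, hal, List.length_append] at h5
      rcases t with _ | ⟨j, t⟩
      · rw [List.append_nil] at ht
        exact h2 (pf c a hc ha (ht ▸ hva))
      · have h6 : t = [] := by
          apply List.length_eq_zero_iff.1
          simp only [List.length_cons] at h5
          omega
        subst h6
        by_cases h7 : j = i
        · subst h7
          exact h2 (pf c a hc ha (by rw [← ht, hwa]))
        · have h8 : j = !i := bool_aux i j h7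
          subst h8
          exact h3 (pf c b hc hb (by rw [← ht, hwb]))
    have hmem : x * g ∈ Subgroup.closure (gens S) := by
      refine ih _ ?_ (x * g) w' hrep rfl
      rw [← hL]
      have heW : e ∈ W n := mem_W.2 he
      have haE : a ∈ (W n).erase e := Finset.mem_erase.2 ⟨hea.symm, haW⟩
      have hbE : b ∈ ((W n).erase e).erase a :=
        Finset.mem_erase.2 ⟨hab.symm, Finset.mem_erase.2 ⟨heb.symm, mem_W.2 hb⟩⟩
      have hsplit : ∀ f : List Bool → ℕ, ∑ c ∈ W n, f c =
          f e + (f a + (f b + ∑ c ∈ (((W n).erase e).erase a).erase b, f c)) := by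
        intro f
        rw [Finset.add_sum_erase _ f hbE, Finset.add_sum_erase _ f haE,
          Finset.add_sum_erase _ f heW]
      rw [hsplit fun c => (w' c).length, hsplit fun c => (w c).length]
      have hrest : ∑ c ∈ (((W n).erase e).erase a).erase b, (w' c).length =
          ∑ c ∈ (((W n).erase e).erase a).erase b, (w c).length := by
        refine Finset.sum_congr rfl fun c hc => ?_
        rw [Finset.mem_erase, Finset.mem_erase, Finset.mem_erase] at hc
        rw [wc c hc.2.2.1 hc.2.1 hc.1]
      rw [hrest, we, wa, wb, hal, hbl]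
      simp only [List.length_append, List.length_singleton]
      omega
    have : x = x * g * g⁻¹ := by group
    rw [this]
    exact mul_mem hmem (inv_mem (Subgroup.subset_closure hg))

end main

/-- **Main theorem.**  A universal CP monoid exists; and for every universal CP monoid
`(U, Σ, π_1, π_2)` the group of units of `U` is generated by the images `ψ_{Φ,τ}(S_d)` of the symmetric
groups, `(Φ, τ) ∈ 𝕊(U)` a `d`-CP structure with `d ≥ 2`. -/
theorem result :
    (∃ (U : Type u) (_ : Monoid U) (S : CP U 2), IsUniversal S) ∧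
      ∀ (U : Type u) [Monoid U] (S : CP U 2), IsUniversal S →
        Subgroup.closure {x : Uˣ | ∃ (d : ℕ) (T : CP U d) (σ : Equiv.Perm (Fin d)),
          2 ≤ d ∧ InS S T ∧ (x : U) = T.psi σ} = ⊤ := by
  refine ⟨⟨_, _, _, universal_exists⟩, ?_⟩
  intro U _ S hS
  rw [eq_top_iff]
  rintro x -
  obtain ⟨n, w, h⟩ := mem_tame hS (x : U)
  exact unit_mem hS _ x w h rfl

end Pool.Agent.Results.MP_6189ff_al.UnitGroup
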